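import Pool.Agent.Lib.MP_2155e3_nt.Pigeon

set_option autoImplicit false

/-!
For a fixed finite set `S` of primes: the pigeonhole argument modulo a power of one prime `q ∈ S`,
put into the identity
`(16 P + s)³ - (4 P + s) (s - 32 P)² = 108 P s²` with `P = A (A - C)`, `s = C²`,
in which the factor `A - C` occurs to the first power only.
-/

namespace Pool.Agent.Lib.MP_2155e3_nt.FixedS

open Finset Pigeon

theorem num_le' (T : Finset ℕ) (hT : ∀ p ∈ T, p.Prime) (E : ℕ) (v : ℕ → ℕ)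
    (hv : ∀ p ∈ T, v p ≤ E) : num T v ≤ (∏ p ∈ T, p) ^ E := by
  unfold num
  rw [← Finset.prod_pow]
  exact Finset.prod_le_prod' fun p hp => Nat.pow_le_pow_right (hT p hp).pos (hv p hp)

/-- the pigeonhole principle: two different products of primes of `T`, congruent modulo `N` -/
theorem pigeon' (T : Finset ℕ) (hT : ∀ p ∈ T, p.Prime) (E N : ℕ) (hN : 0 < N)
    (hm : N < E ^ T.card) :
    ∃ v w : ℕ → ℕ, num T v < num T w ∧ N ∣ num T w - num T v ∧
      num T w ≤ (∏ p ∈ T, p) ^ E := by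
  classical
  let F : (T → Fin E) → ℕ → ℕ := fun f p => if h : p ∈ T then (f ⟨p, h⟩ : ℕ) else 0
  have hF : ∀ f : T → Fin E, ∀ p (h : p ∈ T), F f p = (f ⟨p, h⟩ : ℕ) := by
    intro f p h
    simp [F, h]
  let G : (T → Fin E) → Fin N := fun f => ⟨num T (F f) % N, Nat.mod_lt _ hN⟩
  have hcard : Fintype.card (Fin N) < Fintype.card (T → Fin E) := by
    rw [Fintype.card_fin, Fintype.card_fun, Fintype.card_fin, Fintype.card_coe]
    exact hm
  obtain ⟨f, g, hfg, hG⟩ := Fintype.exists_ne_map_eq_of_card_lt G hcard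
  have hmod : num T (F f) % N = num T (F g) % N := by
    have := congrArg Fin.val hG
    exact this
  have hne : num T (F f) ≠ num T (F g) := by
    intro h
    apply hfg
    funext ⟨p, hp⟩
    have h1 := congrArg (fun n => n.factorization p) h
    simp only [num_factorization T hT _ hp] at h1
    rw [hF f p hp, hF g p hp] at h1
    exact Fin.ext h1
  have hle : ∀ f : T → Fin E, num T (F f) ≤ (∏ p ∈ T, p) ^ E := by
    intro f
    refine num_le' T hT E _ fun p hp => ?_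
    rw [hF f p hp]
    exact (f ⟨p, hp⟩).2.le
  rcases lt_or_gt_of_ne hne with h | h
  · exact ⟨F f, F g, h, (Nat.modEq_iff_dvd' h.le).1 hmod, hle g⟩
  · exact ⟨F g, F f, h, (Nat.modEq_iff_dvd' h.le).1 hmod.symm, hle f⟩

/-- coprime `T`-units `A > C`, congruent modulo `q ^ m` -/
theorem pair (T : Finset ℕ) (hT : ∀ p ∈ T, p.Prime) (q : ℕ) (hq : q.Prime) (hqT : q ∉ T)
    (E m : ℕ) (hm : q ^ m < E ^ T.card) :
    ∃ A C k : ℕ, 0 < C ∧ 0 < k ∧ A = C + q ^ m * k ∧ A.Coprime C ∧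
      (∀ p : ℕ, p.Prime → p ∣ A → p ∈ T) ∧ (∀ p : ℕ, p.Prime → p ∣ C → p ∈ T) ∧
      A ≤ (∏ p ∈ T, p) ^ E := by
  obtain ⟨v, w, hvw, hdvd, hle⟩ := pigeon' T hT E (q ^ m) (pow_pos hq.pos m) hm
  have hT1 : ∀ (u : ℕ → ℕ) (p : ℕ), p.Prime → p ∣ num T u → p ∈ T := fun u p hp h =>
    primeFactors_num T hT u (Nat.mem_primeFactors.2 ⟨hp, h, (num_pos T hT u).ne'⟩)
  set n1 := num T w with hn1
  set n2 := num T v with hn2
  have hn2pos : 0 < n2 := num_pos T hT v
  have hn1pos : 0 < n1 := num_pos T hT w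
  set g := Nat.gcd n1 n2 with hg
  have hgpos : 0 < g := Nat.gcd_pos_of_pos_left _ hn1pos
  obtain ⟨u, hu⟩ := Nat.gcd_dvd_left n1 n2
  obtain ⟨s, hs⟩ := Nat.gcd_dvd_right n1 n2
  rw [← hg] at hu hs
  have hus : u.Coprime s := by
    have h := Nat.coprime_div_gcd_div_gcd (m := n1) (n := n2) hgpos
    rw [← hg] at h
    have e1 : n1 / g = u := by rw [hu]; exact Nat.mul_div_cancel_left u hgpos
    have e2 : n2 / g = s := by rw [hs]; exact Nat.mul_div_cancel_left s hgpos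
    rwa [e1, e2] at h
  have hspos : 0 < s := by
    rcases Nat.eq_zero_or_pos s with h | h
    · rw [h, mul_zero] at hs
      omega
    · exact h
  have hlt : s < u := by
    rw [hu, hs] at hvw
    exact Nat.lt_of_mul_lt_mul_left hvw
  obtain ⟨d, hd⟩ := Nat.exists_eq_add_of_lt hlt
  set b := d + 1 with hb
  have hub : u = s + b := by omega
  have hbpos : 0 < b := by omega
  have hgq : Nat.Coprime (q ^ m) g := by
    refine Nat.Coprime.pow_left m ((Nat.Prime.coprime_iff_not_dvd hq).2 fun h => hqT ?_)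
    refine hT1 w q hq ?_
    rw [← hn1, hu]
    exact h.mul_right u
  have hdb : q ^ m ∣ b := by
    have h1 : n1 - n2 = g * b := by
      rw [hu, hs, hub, mul_add]
      omega
    rw [h1] at hdvd
    exact Nat.Coprime.dvd_of_dvd_mul_left hgq hdvd
  obtain ⟨k, hk⟩ := hdb
  have hkpos : 0 < k := by
    rcases Nat.eq_zero_or_pos k with h | h
    · rw [h, mul_zero] at hk
      omega
    · exact h
  refine ⟨u, s, k, hspos, hkpos, by rw [← hk]; exact hub, hus, ?_, ?_, ?_⟩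
  · intro p hp h
    refine hT1 w p hp ?_
    rw [← hn1, hu]
    exact h.mul_left g
  · intro p hp h
    refine hT1 v p hp ?_
    rw [← hn2, hs]
    exact h.mul_left g
  · refine le_trans ?_ hle
    rw [hu]
    exact Nat.le_mul_of_pos_left u hgpos

/-- primitivity at `p` -/
theorem primitive (A C : ℤ) (hAC : IsCoprime A C) (p : ℕ) (hp : p.Prime)
    (h2 : p = 2 → ¬ (p : ℤ) ∣ C) :
    ¬ ((p : ℤ) ^ 6 ∣ (16 * (A * (A - C)) + C ^ 2) ^ 3 ∧
      (p : ℤ) ^ 6 ∣ ((2 * A - C) * (C ^ 2 - 32 * (A * (A - C)))) ^ 2) := by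
  rintro ⟨h3, h4⟩
  have hp' : Prime (p : ℤ) := Nat.prime_iff_prime_int.1 hp
  have hx2 : (p : ℤ) ∣ 16 * (A * (A - C)) + C ^ 2 :=
    hp'.dvd_of_dvd_pow ((dvd_pow_self _ (by norm_num)).trans h3)
  have hboth : ¬ ((p : ℤ) ∣ A ∧ (p : ℤ) ∣ C) := by
    rintro ⟨h5, h6⟩
    exact hp'.not_isUnit (hAC.isUnit_of_dvd' h5 h6)
  by_cases h5 : (p : ℤ) ∣ A * (A - C)
  · have h6 : (p : ℤ) ∣ C := by
      have h7 : (p : ℤ) ∣ C ^ 2 := (dvd_add_right (h5.mul_left 16)).1 hx2
      exact hp'.dvd_of_dvd_pow h7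
    rcases hp'.dvd_or_dvd h5 with h7 | h7
    · exact hboth ⟨h7, h6⟩
    · refine hboth ⟨?_, h6⟩
      have h8 := dvd_add h7 h6
      rwa [sub_add_cancel] at h8
  · by_cases h6 : (p : ℤ) ∣ C
    · have h7 : (p : ℤ) ∣ 16 * (A * (A - C)) :=
        (dvd_add_left (h6.trans (dvd_pow_self C (by norm_num)))).1 hx2
      have h8 : (p : ℤ) ∣ (2 : ℤ) ^ 4 := by
        rcases hp'.dvd_or_dvd h7 with h9 | h9
        · exact h9
        · exact absurd h9 h5
      have h9 : p ∣ 2 := by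
        have := hp'.dvd_of_dvd_pow h8
        exact_mod_cast this
      exact h2 ((Nat.prime_dvd_prime_iff_eq hp Nat.prime_two).1 h9) h6
    · have h7 : (p : ℤ) ^ 6 ∣ 108 * ((A * (A - C)) * C ^ 4) := by
        have h8 := dvd_sub h3 h4
        have e : (16 * (A * (A - C)) + C ^ 2) ^ 3 -
            ((2 * A - C) * (C ^ 2 - 32 * (A * (A - C)))) ^ 2 =
            108 * ((A * (A - C)) * C ^ 4) := by ring
        rwa [e] at h8
      have h8 : IsCoprime ((p : ℤ) ^ 6) ((A * (A - C)) * C ^ 4) := by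
        refine IsCoprime.pow_left ?_
        rw [Prime.coprime_iff_not_dvd hp']
        intro h9
        rcases hp'.dvd_or_dvd h9 with h10 | h10
        · exact h5 h10
        · exact h6 (hp'.dvd_of_dvd_pow h10)
      have h9 : (p : ℤ) ^ 6 ∣ 108 := h8.dvd_of_dvd_mul_right h7
      have h10 : p ^ 6 ∣ 108 := by exact_mod_cast h9
      have h11 := Nat.le_of_dvd (by norm_num) h10
      have h12 : p < 3 := by
        by_contra h13
        push Not at h13
        have : 3 ^ 6 ≤ p ^ 6 := Nat.pow_le_pow_left h13 6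
        omega
      have h13 := hp.two_le
      have h14 : p = 2 := by omega
      rw [h14] at h10
      norm_num at h10

/-- one solution -/
theorem solution (T : Finset ℕ) (hT : ∀ p ∈ T, p.Prime) (h2 : 2 ∉ T) (q : ℕ) (hq : q.Prime)
    (hqT : q ∉ T) (E m : ℕ) (hm : q ^ m < E ^ T.card) :
    ∃ (c k : ℕ) (a x y : ℤ), 0 < k ∧ q ^ m * k ≤ c ∧ c ≤ (∏ p ∈ T, p) ^ E ∧ a ≠ 0 ∧
      (∀ p : ℕ, p.Prime → (p : ℤ) ∣ a → p ∈ insert q T) ∧
      (∀ p : ℕ, p.Prime → ¬ ((p : ℤ) ^ 6 ∣ x ^ 3 ∧ (p : ℤ) ^ 6 ∣ y ^ 2)) ∧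
      y ^ 2 = x ^ 3 + a * (108 * (k : ℤ)) ∧ (c : ℤ) ^ 2 ≤ x ∧ x ≤ 16 * (c : ℤ) ^ 2 := by
  obtain ⟨A, C, k, hC, hk, hAC, hcop, hA1, hC1, hle⟩ := pair T hT q hq hqT E m hm
  have hqm : 0 < q ^ m := pow_pos hq.pos m
  have hA : (A : ℤ) - C = (q : ℤ) ^ m * k := by
    rw [hAC]
    push_cast
    ring
  have hA0 : 0 < A := by omega
  have hA' : (0 : ℤ) < A := by exact_mod_cast hA0
  have hC' : (0 : ℤ) < C := by exact_mod_cast hC
  have hq' : (0 : ℤ) < (q : ℤ) ^ m := by exact_mod_cast hqm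
  have hk' : (0 : ℤ) < k := by exact_mod_cast hk
  have hd : (0 : ℤ) < (A : ℤ) - C := by rw [hA]; positivity
  refine ⟨A, k, -(A * (C : ℤ) ^ 4 * (q : ℤ) ^ m), 16 * (A * ((A : ℤ) - C)) + (C : ℤ) ^ 2,
    (2 * A - C) * ((C : ℤ) ^ 2 - 32 * (A * ((A : ℤ) - C))), hk, by omega, hle, ?_, ?_, ?_, ?_, ?_,
    ?_⟩
  · have : (0 : ℤ) < A * (C : ℤ) ^ 4 * (q : ℤ) ^ m := by positivity
    omega
  · intro p hp h
    rw [dvd_neg] at h
    have hp' : Prime (p : ℤ) := Nat.prime_iff_prime_int.1 hp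
    rw [mem_insert]
    rcases hp'.dvd_or_dvd h with h3 | h3
    · right
      rcases hp'.dvd_or_dvd h3 with h4 | h4
      · exact hA1 p hp (by exact_mod_cast h4)
      · have h5 := hp'.dvd_of_dvd_pow h4
        exact hC1 p hp (by exact_mod_cast h5)
    · left
      have h4 := hp'.dvd_of_dvd_pow h3
      exact (Nat.prime_dvd_prime_iff_eq hp hq).1 (by exact_mod_cast h4)
  · intro p hp
    refine primitive A C (Nat.isCoprime_iff_coprime.2 hcop) p hp ?_
    rintro rfl h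
    exact h2 (hC1 2 hp (by exact_mod_cast h))
  · have e : (A : ℤ) * ((A : ℤ) - C) = A * ((q : ℤ) ^ m * k) := by rw [hA]
    have e2 : (2 * (A : ℤ) - C) ^ 2 = 4 * (A * ((A : ℤ) - C)) + (C : ℤ) ^ 2 := by ring
    rw [mul_pow, e2, e]
    ring
  · nlinarith
  · nlinarith

end Pool.Agent.Lib.MP_2155e3_nt.FixedS
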