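import Mathlib

set_option autoImplicit false

/-!
Coprime positive integers with sum `c` and small radical (the pigeonhole argument of Stewart and
Tijdeman), with explicit constants.
-/

namespace Pool.Agent.Lib.MP_2155e3_nt.Pigeon

open Finset

/-- the integer with the exponents `v` -/
def num (T : Finset ℕ) (v : ℕ → ℕ) : ℕ := ∏ p ∈ T, p ^ v p

theorem num_pos (T : Finset ℕ) (hT : ∀ p ∈ T, p.Prime) (v : ℕ → ℕ) : 0 < num T v :=
  Finset.prod_pos fun p hp => pow_pos (hT p hp).pos _

theorem num_factorization (T : Finset ℕ) (hT : ∀ p ∈ T, p.Prime) (v : ℕ → ℕ) {q : ℕ}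
    (hq : q ∈ T) : (num T v).factorization q = v q := by
  unfold num
  rw [Nat.factorization_prod (fun p hp => pow_ne_zero _ (hT p hp).ne_zero),
    Finsupp.finsetSum_apply, Finset.sum_eq_single_of_mem q hq]
  · rw [(hT q hq).factorization_pow, Finsupp.single_eq_same]
  · intro p hp hpq
    rw [(hT p hp).factorization_pow, Finsupp.single_apply, if_neg hpq]

theorem num_le (T : Finset ℕ) (Y E : ℕ) (hY : 1 ≤ Y) (hT : ∀ p ∈ T, p ≤ Y) (v : ℕ → ℕ)
    (hv : ∀ p ∈ T, v p ≤ E) : num T v ≤ Y ^ (E * T.card) := by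
  unfold num
  calc ∏ p ∈ T, p ^ v p ≤ ∏ _p ∈ T, Y ^ E := by
        refine Finset.prod_le_prod' fun p hp => ?_
        calc p ^ v p ≤ Y ^ v p := Nat.pow_le_pow_left (hT p hp) _
          _ ≤ Y ^ E := Nat.pow_le_pow_right hY (hv p hp)
    _ = Y ^ (E * T.card) := by rw [Finset.prod_const, ← pow_mul]

theorem num_odd (T : Finset ℕ) (hT : ∀ p ∈ T, p.Prime) (h2 : 2 ∉ T) (v : ℕ → ℕ) :
    Odd (num T v) := by
  unfold num
  rw [← Nat.not_even_iff_odd, even_iff_two_dvd, Nat.prime_two.prime.dvd_finsetProd_iff]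
  rintro ⟨p, hp, h⟩
  have h3 := Nat.prime_two.dvd_of_dvd_pow h
  have h4 := (Nat.prime_dvd_prime_iff_eq Nat.prime_two (hT p hp)).1 h3
  exact h2 (h4 ▸ hp)

theorem primeFactors_num (T : Finset ℕ) (hT : ∀ p ∈ T, p.Prime) (v : ℕ → ℕ) :
    (num T v).primeFactors ⊆ T := by
  intro q hq
  have hqp := Nat.prime_of_mem_primeFactors hq
  have h1 := Nat.dvd_of_mem_primeFactors hq
  unfold num at h1
  rw [hqp.prime.dvd_finsetProd_iff] at h1
  obtain ⟨p, hp, h2⟩ := h1
  have h3 := hqp.dvd_of_dvd_pow h2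
  have h4 := (Nat.prime_dvd_prime_iff_eq hqp (hT p hp)).1 h3
  exact h4 ▸ hp

/-- the pigeonhole principle: two different products of primes of `T`, congruent modulo `2 ^ m` -/
theorem pigeon (T : Finset ℕ) (hT : ∀ p ∈ T, p.Prime) (Y E m : ℕ) (hY : 1 ≤ Y)
    (hTY : ∀ p ∈ T, p ≤ Y) (hm : 2 ^ m < E ^ T.card) :
    ∃ v w : ℕ → ℕ, num T v < num T w ∧ 2 ^ m ∣ num T w - num T v ∧
      num T w ≤ Y ^ (E * T.card) := by
  classical
  let F : (T → Fin E) → ℕ → ℕ := fun f p => if h : p ∈ T then (f ⟨p, h⟩ : ℕ) else 0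
  have hF : ∀ f : T → Fin E, ∀ p (h : p ∈ T), F f p = (f ⟨p, h⟩ : ℕ) := by
    intro f p h
    simp [F, h]
  have hpos : 0 < 2 ^ m := by positivity
  let G : (T → Fin E) → Fin (2 ^ m) := fun f => ⟨num T (F f) % 2 ^ m, Nat.mod_lt _ hpos⟩
  have hcard : Fintype.card (Fin (2 ^ m)) < Fintype.card (T → Fin E) := by
    rw [Fintype.card_fin, Fintype.card_fun, Fintype.card_fin, Fintype.card_coe]
    exact hm
  obtain ⟨f, g, hfg, hG⟩ := Fintype.exists_ne_map_eq_of_card_lt G hcard
  have hmod : num T (F f) % 2 ^ m = num T (F g) % 2 ^ m := by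
    have := congrArg Fin.val hG
    exact this
  have hne : num T (F f) ≠ num T (F g) := by
    intro h
    apply hfg
    funext ⟨p, hp⟩
    have h1 := congrArg (fun n => n.factorization p) h
    simp only [num_factorization T hT _ hp] at h1
    rw [hF f p hp, hF g p hp] at h1
    exact Fin.ext h1
  have hle : ∀ f : T → Fin E, num T (F f) ≤ Y ^ (E * T.card) := by
    intro f
    refine num_le T Y E hY hTY _ fun p hp => ?_
    rw [hF f p hp]
    exact (f ⟨p, hp⟩).2.le
  rcases lt_or_gt_of_ne hne with h | h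
  · exact ⟨F f, F g, h, (Nat.modEq_iff_dvd' h.le).1 hmod, hle g⟩
  · exact ⟨F g, F f, h, (Nat.modEq_iff_dvd' h.le).1 hmod.symm, hle f⟩

/-- the product of the primes dividing `n` is at most `n` -/
theorem prod_primeFactors_le {n : ℕ} (hn : 0 < n) : ∏ p ∈ n.primeFactors, p ≤ n :=
  Nat.le_of_dvd hn (Nat.prod_primeFactors_dvd n)

/-- Coprime numbers with a small radical. -/
theorem triple (T : Finset ℕ) (hT : ∀ p ∈ T, p.Prime) (h2 : 2 ∉ T) (Y m : ℕ) (hY : 1 ≤ Y)
    (hTY : ∀ p ∈ T, p ≤ Y) (hm : 2 ^ m < (4 * Y) ^ T.card) (hm' : (4 * Y) ^ T.card ≤ 2 ^ (m + 1)) :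
    ∃ a b c : ℕ, 0 < a ∧ 0 < b ∧ a.Coprime b ∧ a + b = c ∧
      4 ^ T.card * ∏ p ∈ (a * b * c).primeFactors, p ≤ 4 * c ∧ c ≤ Y ^ (4 * Y * T.card) := by
  obtain ⟨v, w, hvw, hdvd, hle⟩ := pigeon T hT Y (4 * Y) m hY hTY hm
  set n1 := num T w with hn1
  set n2 := num T v with hn2
  have hn2pos : 0 < n2 := num_pos T hT v
  have hn1pos : 0 < n1 := num_pos T hT w
  set g := Nat.gcd n1 n2 with hg
  have hgpos : 0 < g := Nat.gcd_pos_of_pos_left _ hn1pos
  obtain ⟨u, hu⟩ := Nat.gcd_dvd_left n1 n2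
  obtain ⟨s, hs⟩ := Nat.gcd_dvd_right n1 n2
  rw [← hg] at hu hs
  have hus : u.Coprime s := by
    have h := Nat.coprime_div_gcd_div_gcd (m := n1) (n := n2) hgpos
    rw [← hg] at h
    have e1 : n1 / g = u := by rw [hu]; exact Nat.mul_div_cancel_left u hgpos
    have e2 : n2 / g = s := by rw [hs]; exact Nat.mul_div_cancel_left s hgpos
    rwa [e1, e2] at h
  have hspos : 0 < s := by
    rcases Nat.eq_zero_or_pos s with h | h
    · rw [h, mul_zero] at hs
      omega
    · exact h
  have hlt : s < u := by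
    rw [hu, hs] at hvw
    exact Nat.lt_of_mul_lt_mul_left hvw
  obtain ⟨d, hd⟩ := Nat.exists_eq_add_of_lt hlt
  set b := d + 1 with hb
  have hub : u = s + b := by omega
  have hbpos : 0 < b := by omega
  -- `2 ^ m` divides `b`
  have hgodd : Odd g := by
    have h := num_odd T hT h2 w
    rw [← hn1, hu] at h
    exact (Nat.odd_mul.1 h).1
  have hdb : 2 ^ m ∣ b := by
    have h1 : n1 - n2 = g * b := by
      rw [hu, hs, hub, mul_add]
      omega
    rw [h1] at hdvd
    refine Nat.Coprime.dvd_of_dvd_mul_left ?_ hdvd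
    exact Nat.Coprime.pow_left m (Nat.coprime_two_left.2 hgodd)
  obtain ⟨k, hk⟩ := hdb
  have hkpos : 0 < k := by
    rcases Nat.eq_zero_or_pos k with h | h
    · rw [h, mul_zero] at hk
      omega
    · exact h
  have hsb : s.Coprime b := by
    have : s.Coprime (s + b) := by rw [← hub]; exact hus.symm
    exact (Nat.coprime_self_add_right).1 this
  refine ⟨s, b, u, hspos, hbpos, hsb, hub.symm, ?_, ?_⟩
  · -- the radical
    have hsub : (s * b * u).primeFactors ⊆ T ∪ ({2} ∪ k.primeFactors) := by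
      intro q hq
      have hqp := Nat.prime_of_mem_primeFactors hq
      have h1 := Nat.dvd_of_mem_primeFactors hq
      rw [mem_union, mem_union, mem_singleton]
      rcases (hqp.dvd_mul).1 h1 with h3 | h3
      · rcases (hqp.dvd_mul).1 h3 with h4 | h4
        · left
          refine primeFactors_num T hT v (Nat.mem_primeFactors.2 ⟨hqp, ?_, hn2pos.ne'⟩)
          rw [← hn2, hs]
          exact h4.mul_left g
        · right
          rw [hk] at h4
          rcases (hqp.dvd_mul).1 h4 with h5 | h5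
          · left
            exact (Nat.prime_dvd_prime_iff_eq hqp Nat.prime_two).1 (hqp.dvd_of_dvd_pow h5)
          · right
            exact Nat.mem_primeFactors.2 ⟨hqp, h5, hkpos.ne'⟩
      · left
        refine primeFactors_num T hT w (Nat.mem_primeFactors.2 ⟨hqp, ?_, hn1pos.ne'⟩)
        rw [← hn1, hu]
        exact h3.mul_left g
    have hone : ∀ p ∈ T ∪ ({2} ∪ k.primeFactors), 1 ≤ p := by
      intro p hp
      rw [mem_union, mem_union, mem_singleton] at hp
      rcases hp with hp | hp | hp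
      · exact (hT p hp).pos
      · omega
      · exact (Nat.prime_of_mem_primeFactors hp).pos
    have hprod : ∏ p ∈ (s * b * u).primeFactors, p ≤ Y ^ T.card * (2 * k) := by
      calc ∏ p ∈ (s * b * u).primeFactors, p ≤ ∏ p ∈ T ∪ ({2} ∪ k.primeFactors), p :=
            Finset.prod_le_prod_of_subset_of_one_le' hsub fun p hp _ => hone p hp
        _ ≤ (∏ p ∈ T, p) * ∏ p ∈ {2} ∪ k.primeFactors, p := by
            rw [← Finset.prod_union_inter]
            refine Nat.le_mul_of_pos_right _ (Finset.prod_pos fun p hp => ?_)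
            exact (hT p (mem_inter.1 hp).1).pos
        _ ≤ (∏ p ∈ T, p) * ((∏ p ∈ {2}, p) * ∏ p ∈ k.primeFactors, p) := by
            refine Nat.mul_le_mul_left _ ?_
            rw [← Finset.prod_union_inter]
            refine Nat.le_mul_of_pos_right _ (Finset.prod_pos fun p hp => ?_)
            exact (Nat.prime_of_mem_primeFactors (mem_inter.1 hp).2).pos
        _ ≤ Y ^ T.card * (2 * k) := by
            refine Nat.mul_le_mul ?_ ?_
            · exact Finset.prod_le_pow_card _ _ _ hTY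
            · rw [Finset.prod_singleton]
              exact Nat.mul_le_mul_left _ (prod_primeFactors_le hkpos)
    -- compare
    have h3 : 2 ^ m * k ≤ u := by rw [← hk]; omega
    have h4 : (4 * Y) ^ T.card * k ≤ 2 * u := by
      calc (4 * Y) ^ T.card * k ≤ 2 ^ (m + 1) * k := Nat.mul_le_mul_right _ hm'
        _ = 2 * (2 ^ m * k) := by ring
        _ ≤ 2 * u := Nat.mul_le_mul_left _ h3
    calc 4 ^ T.card * ∏ p ∈ (s * b * u).primeFactors, p
        ≤ 4 ^ T.card * (Y ^ T.card * (2 * k)) := Nat.mul_le_mul_left _ hprod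
      _ = 2 * ((4 * Y) ^ T.card * k) := by rw [mul_pow]; ring
      _ ≤ 2 * (2 * u) := Nat.mul_le_mul_left _ h4
      _ = 4 * u := by ring
  · refine le_trans ?_ hle
    rw [hu]
    exact Nat.le_mul_of_pos_left u hgpos

end Pool.Agent.Lib.MP_2155e3_nt.Pigeon
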